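import Mathlib

/-!
# Random temporal graphs with independent snapshots: words, expectations, reachability
-/

namespace Pool.Agent.J4H99.RST

open Finset
open scoped BigOperators Classical

variable {V : Type} [Fintype V] [DecidableEq V]

/-- Expectation over `t` independent snapshots of law `μ`, presented as a list. -/
noncomputable def Ex (μ : SimpleGraph V → ℝ) : ℕ → (List (SimpleGraph V) → ℝ) → ℝ
  | 0, f => f []
  | t + 1, f => ∑ G, μ G * Ex μ t (fun ω => f (G :: ω))

variable {μ : SimpleGraph V → ℝ}

lemma Ex_mono_supp (h0 : ∀ G, 0 ≤ μ G) :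
    ∀ (t : ℕ) (f g : List (SimpleGraph V) → ℝ),
      (∀ ω, ω.length = t → (∀ G ∈ ω, μ G ≠ 0) → f ω ≤ g ω) → Ex μ t f ≤ Ex μ t g := by
  intro t
  induction t with
  | zero =>
    intro f g h
    exact h [] rfl (by simp)
  | succ t ih =>
    intro f g h
    simp only [Ex]
    refine Finset.sum_le_sum fun G _ => ?_
    by_cases hG : μ G = 0
    · simp [hG]
    · refine mul_le_mul_of_nonneg_left ?_ (h0 G)
      refine ih _ _ fun ω hω hs => h _ (by simp [hω]) ?_
      intro G' hG'
      rcases List.mem_cons.1 hG' with rfl | h'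
      · exact hG
      · exact hs _ h'

lemma Ex_mono (h0 : ∀ G, 0 ≤ μ G) (t : ℕ) {f g : List (SimpleGraph V) → ℝ}
    (h : ∀ ω, f ω ≤ g ω) : Ex μ t f ≤ Ex μ t g :=
  Ex_mono_supp h0 t f g fun ω _ _ => h ω

lemma Ex_const (h1 : ∑ G, μ G = 1) (t : ℕ) (c : ℝ) : Ex μ t (fun _ => c) = c := by
  induction t with
  | zero => rfl
  | succ t ih => simp only [Ex, ih, ← Finset.sum_mul, h1, one_mul]

lemma Ex_add (t : ℕ) (f g : List (SimpleGraph V) → ℝ) :
    Ex μ t (fun ω => f ω + g ω) = Ex μ t f + Ex μ t g := by
  induction t generalizing f g with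
  | zero => rfl
  | succ t ih => simp only [Ex, ih, mul_add, Finset.sum_add_distrib]

lemma Ex_mul (t : ℕ) (c : ℝ) (f : List (SimpleGraph V) → ℝ) :
    Ex μ t (fun ω => c * f ω) = c * Ex μ t f := by
  induction t generalizing f with
  | zero => rfl
  | succ t ih =>
    simp only [Ex, ih, Finset.mul_sum]
    exact Finset.sum_congr rfl fun G _ => by ring

lemma Ex_sub (t : ℕ) (f g : List (SimpleGraph V) → ℝ) :
    Ex μ t (fun ω => f ω - g ω) = Ex μ t f - Ex μ t g := by
  have h := Ex_add (μ := μ) t f (fun ω => (-1) * g ω)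
  rw [Ex_mul] at h
  have h2 : (fun ω => f ω + (-1) * g ω) = (fun ω => f ω - g ω) := by
    funext ω; ring
  rw [h2] at h
  rw [h]; ring

lemma Ex_sum (t : ℕ) {ι : Type} (s : Finset ι) (f : ι → List (SimpleGraph V) → ℝ) :
    Ex μ t (fun ω => ∑ i ∈ s, f i ω) = ∑ i ∈ s, Ex μ t (f i) := by
  induction t generalizing f with
  | zero => rfl
  | succ t ih =>
    simp only [Ex, ih, Finset.mul_sum]
    exact Finset.sum_comm

lemma Ex_nonneg (h0 : ∀ G, 0 ≤ μ G) (t : ℕ) {f : List (SimpleGraph V) → ℝ}
    (h : ∀ ω, 0 ≤ f ω) : 0 ≤ Ex μ t f := by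
  induction t generalizing f with
  | zero => exact h _
  | succ t ih => exact Finset.sum_nonneg fun G _ => mul_nonneg (h0 G) (ih fun ω => h _)

lemma Ex_append (s t : ℕ) (f : List (SimpleGraph V) → ℝ) :
    Ex μ (s + t) f = Ex μ s (fun ω₁ => Ex μ t (fun ω₂ => f (ω₁ ++ ω₂))) := by
  induction s generalizing f with
  | zero => simp [Ex]
  | succ s ih =>
    rw [Nat.succ_add]
    simp only [Ex, ih, List.cons_append]

/-- Temporal walks: `TW ω x z A` says that some temporal walk following the snapshots in `ω`
goes from `x` to `z`, and `A` is the set of vertices on it. -/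
inductive TW : List (SimpleGraph V) → V → V → Finset V → Prop
  | nil (x : V) : TW [] x x {x}
  | cons {G : SimpleGraph V} {ω : List (SimpleGraph V)} {x y z : V} {A : Finset V} :
      (y = x ∨ G.Adj x y) → TW ω y z A → TW (G :: ω) x z (insert x A)

lemma TW.start_mem {ω : List (SimpleGraph V)} {x z : V} {A : Finset V} (h : TW ω x z A) :
    x ∈ A := by
  cases h <;> simp

lemma TW.wait (ω : List (SimpleGraph V)) (x : V) : TW ω x x {x} := by
  induction ω with
  | nil => exact TW.nil x
  | cons G ω ih =>
    have := TW.cons (G := G) (Or.inl rfl) ih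
    simpa using this

lemma TW.append {ω₁ ω₂ : List (SimpleGraph V)} {x y z : V} {A B : Finset V}
    (h₁ : TW ω₁ x y A) (h₂ : TW ω₂ y z B) : TW (ω₁ ++ ω₂) x z (A ∪ B) := by
  induction h₁ with
  | nil x =>
    have : ({x} : Finset V) ∪ B = B := by
      rw [← Finset.insert_eq, Finset.insert_eq_of_mem h₂.start_mem]
    rw [this]; exact h₂
  | cons hxy _ ih =>
    rw [Finset.insert_union]
    exact TW.cons hxy (ih h₂)

/-- One step of reachability. -/
noncomputable def step (G : SimpleGraph V) (X : Finset V) : Finset V :=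
  X ∪ univ.filter (fun y => ∃ x ∈ X, G.Adj x y)

lemma mem_step {G : SimpleGraph V} {X : Finset V} {y : V} :
    y ∈ step G X ↔ y ∈ X ∨ ∃ x ∈ X, G.Adj x y := by
  simp [step]

lemma subset_step (G : SimpleGraph V) (X : Finset V) : X ⊆ step G X :=
  Finset.subset_union_left

/-- Vertices reachable from `X` along the word `ω`. -/
noncomputable def reach : List (SimpleGraph V) → Finset V → Finset V
  | [], X => X
  | G :: ω, X => reach ω (step G X)

/-- Vertices from which `Y` can be reached along the word `ω`. -/
noncomputable def breach : List (SimpleGraph V) → Finset V → Finset V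
  | [], Y => Y
  | G :: ω, Y => step G (breach ω Y)

lemma subset_reach (ω : List (SimpleGraph V)) (X : Finset V) : X ⊆ reach ω X := by
  induction ω generalizing X with
  | nil => exact subset_rfl
  | cons G ω ih => exact (subset_step G X).trans (ih _)

lemma subset_breach (ω : List (SimpleGraph V)) (X : Finset V) : X ⊆ breach ω X := by
  induction ω with
  | nil => exact subset_rfl
  | cons G ω ih => exact ih.trans (subset_step _ _)

lemma TW_of_mem_reach {ω : List (SimpleGraph V)} {X : Finset V} {y : V}
    (h : y ∈ reach ω X) : ∃ x ∈ X, ∃ A, TW ω x y A := by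
  induction ω generalizing X with
  | nil => exact ⟨y, h, _, TW.nil y⟩
  | cons G ω ih =>
    obtain ⟨x', hx', A, hA⟩ := ih h
    rcases mem_step.1 hx' with h1 | ⟨x, hx, hadj⟩
    · exact ⟨x', h1, _, TW.cons (Or.inl rfl) hA⟩
    · exact ⟨x, hx, _, TW.cons (Or.inr hadj) hA⟩

lemma TW_of_mem_breach {ω : List (SimpleGraph V)} {Y : Finset V} {x : V}
    (h : x ∈ breach ω Y) : ∃ y ∈ Y, ∃ A, TW ω x y A := by
  induction ω generalizing x with
  | nil => exact ⟨x, h, _, TW.nil x⟩
  | cons G ω ih =>
    rcases mem_step.1 h with h1 | ⟨x', hx', hadj⟩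
    · obtain ⟨y, hy, A, hA⟩ := ih h1
      exact ⟨y, hy, _, TW.cons (Or.inl rfl) hA⟩
    · obtain ⟨y, hy, A, hA⟩ := ih hx'
      exact ⟨y, hy, _, TW.cons (Or.inr hadj.symm) hA⟩

/-- In a connected snapshot a proper nonempty set grows. -/
lemma card_step {G : SimpleGraph V} (hG : G.Connected) {X : Finset V} (hX : X.Nonempty) :
    X = univ ∨ X.card + 1 ≤ (step G X).card := by
  by_cases h : X = univ
  · exact Or.inl h
  · right
    obtain ⟨y, hy⟩ : ∃ y, y ∉ X := by
      by_contra hc
      push Not at hc
      exact h (Finset.eq_univ_of_forall hc)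
    obtain ⟨x, hx⟩ := hX
    obtain ⟨p⟩ := hG.preconnected x y
    obtain ⟨e, _, he1, he2⟩ := p.exists_boundary_dart (X : Set V) (by simpa using hx)
      (by simpa using hy)
    have hlt : X ⊂ step G X := by
      refine Finset.ssubset_iff_subset_ne.2 ⟨subset_step G X, fun heq => ?_⟩
      apply he2
      have : e.snd ∈ step G X := mem_step.2 (Or.inr ⟨e.fst, by simpa using he1, e.adj⟩)
      rw [← heq] at this
      simpa using this
    exact Finset.card_lt_card hlt

lemma reach_grow {ω : List (SimpleGraph V)} (hω : ∀ G ∈ ω, G.Connected) {X : Finset V}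
    (hX : X.Nonempty) : reach ω X = univ ∨ X.card + ω.length ≤ (reach ω X).card := by
  induction ω generalizing X with
  | nil => right; simp [reach]
  | cons G ω ih =>
    have hG := hω G (by simp)
    have hω' : ∀ G ∈ ω, G.Connected := fun G' h => hω G' (by simp [h])
    have hne : (step G X).Nonempty := hX.mono (subset_step _ _)
    rcases ih hω' hne with h | h
    · left; exact h
    · rcases card_step hG hX with h1 | h1
      · left
        apply Finset.eq_univ_of_forall
        intro y
        exact subset_reach (G :: ω) X (by rw [h1]; simp)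
      · right
        simp only [reach, List.length_cons]
        omega

/-- Indicator of a proposition. -/
noncomputable def ind (P : Prop) : ℝ := if P then 1 else 0

lemma ind_nonneg (P : Prop) : 0 ≤ ind P := by unfold ind; split_ifs <;> norm_num
lemma ind_le_one (P : Prop) : ind P ≤ 1 := by unfold ind; split_ifs <;> norm_num
lemma ind_true {P : Prop} (h : P) : ind P = 1 := if_pos h
lemma ind_false {P : Prop} (h : ¬ P) : ind P = 0 := if_neg h
lemma ind_not (P : Prop) : ind (¬ P) = 1 - ind P := by
  by_cases h : P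
  · rw [ind_true h, ind_false (not_not.2 h)]; ring
  · rw [ind_false h, ind_true h]; ring

/-- The probability that one can go from `x` to `y` within a block of `t` snapshots. -/
noncomputable def hopP (μ : SimpleGraph V → ℝ) (t : ℕ) (x y : V) : ℝ :=
  Ex μ t (fun ω => ind (∃ A, TW ω x y A))

/-- Blocks of length at least `n` allow every hop. -/
lemma hopP_full (h0 : ∀ G, 0 ≤ μ G) (h1 : ∑ G, μ G = 1)
    (hc : ∀ G, μ G ≠ 0 → G.Connected) {t : ℕ} (ht : Fintype.card V ≤ t) (x y : V) :
    1 / 2 ≤ hopP μ t x y := by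
  have : (1 : ℝ) ≤ hopP μ t x y := by
    calc (1 : ℝ) = Ex μ t (fun _ => 1) := (Ex_const h1 t 1).symm
      _ ≤ hopP μ t x y := by
        refine Ex_mono_supp h0 t _ _ fun ω hω hs => ?_
        have hy : y ∈ reach ω {x} := by
          rcases reach_grow (fun G hG => hc G (hs G hG)) (Finset.singleton_nonempty x) with h | h
          · rw [h]; simp
          · exfalso
            have h2 := Finset.card_le_univ (reach ω {x})
            rw [Finset.card_singleton] at h
            omega
        obtain ⟨x', hx', A, hA⟩ := TW_of_mem_reach hy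
        rw [Finset.mem_singleton] at hx'
        subst hx'
        rw [ind_true ⟨A, hA⟩]
  linarith

end Pool.Agent.J4H99.RST
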