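import Pool.Agent.J4H99.RST.Trip

/-!
# Merging clusters scale by scale
-/

namespace Pool.Agent.J4H99.RST

open Finset
open scoped BigOperators Classical

variable {V : Type} [Fintype V] [DecidableEq V]

/-- A labelling of the vertices with closed trips through every class. -/
structure St (μ : SimpleGraph V → ℝ) (B : ℕ) where
  l : V → V
  c : V → ℕ
  trip : ∀ x, Trip μ B x x (univ.filter (fun y => l y = l x)) (c (l x))

variable {μ : SimpleGraph V → ℝ} {B : ℕ}

def St.C (s : St μ B) : ℕ := ∑ v ∈ univ.image s.l, s.c v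
def St.N (s : St μ B) : ℕ := (univ.image s.l).card

lemma merge_one {w : ℕ} (hw1 : 1 ≤ w) (hw : w ≤ B) (s : St μ B) {x y : V}
    (hxy : 1 / 2 ≤ hopP μ w x y) (hyx : 1 / 2 ≤ hopP μ w y x) (hne : s.l x ≠ s.l y) :
    ∃ s' : St μ B, (∀ a b, s.l a = s.l b → s'.l a = s'.l b) ∧ s'.N + 1 = s.N ∧
      s'.C = s.C + 2 * w := by
  set l' : V → V := fun z => if s.l z = s.l y then s.l x else s.l z with hl'
  set c' : V → ℕ := fun v => if v = s.l x then s.c (s.l x) + s.c (s.l y) + 2 * w else s.c v
    with hc'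
  have hmerge := (s.trip x).merge (s.trip y) hxy hyx hw1 hw
  have htrip : ∀ z, Trip μ B z z (univ.filter (fun a => l' a = l' z)) (c' (l' z)) := by
    intro z
    by_cases hz : l' z = s.l x
    · have hset : univ.filter (fun a => l' a = l' z)
          = univ.filter (fun a => s.l a = s.l x) ∪ univ.filter (fun a => s.l a = s.l y) := by
        ext a
        simp only [Finset.mem_filter, Finset.mem_univ, true_and, Finset.mem_union, hz]
        simp only [hl']
        split_ifs with h
        · simp [h]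
        · simp [h]
      have hcz : c' (l' z) = s.c (s.l x) + s.c (s.l y) + 2 * w := by
        rw [hz]; simp [hc']
      rw [hset, hcz]
      refine hmerge.rotate ?_
      rw [← hset]
      simp
    · have hz2 : s.l z ≠ s.l y := by
        intro h
        apply hz
        simp [hl', h]
      have hz3 : l' z = s.l z := by simp [hl', hz2]
      have hset : univ.filter (fun a => l' a = l' z) = univ.filter (fun a => s.l a = s.l z) := by
        ext a
        simp only [Finset.mem_filter, Finset.mem_univ, true_and, hz3]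
        simp only [hl']
        split_ifs with h
        · constructor
          · intro h2
            exact absurd (hz3.trans h2.symm) hz
          · intro h2
            exact absurd (h2.symm.trans h) hz2
        · exact Iff.rfl
      have hcz : c' (l' z) = s.c (s.l z) := by
        rw [hz3] at hz ⊢
        simp [hc', hz]
      rw [hset, hcz]
      exact s.trip z
  have himg : univ.image l' = (univ.image s.l).erase (s.l y) := by
    ext v
    simp only [Finset.mem_image, Finset.mem_univ, true_and, Finset.mem_erase]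
    constructor
    · rintro ⟨a, ha⟩
      simp only [hl'] at ha
      split_ifs at ha with h
      · exact ⟨by rw [← ha]; exact hne, x, ha⟩
      · exact ⟨by rw [← ha]; exact h, a, ha⟩
    · rintro ⟨hv, a, ha⟩
      refine ⟨a, ?_⟩
      simp only [hl']
      rw [if_neg (by rw [ha]; exact hv)]
      exact ha
  have hymem : s.l y ∈ univ.image s.l := Finset.mem_image_of_mem _ (Finset.mem_univ _)
  have hxmem : s.l x ∈ (univ.image s.l).erase (s.l y) :=
    Finset.mem_erase.2 ⟨hne, Finset.mem_image_of_mem _ (Finset.mem_univ _)⟩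
  refine ⟨⟨l', c', htrip⟩, ?_, ?_, ?_⟩
  · intro a b hab
    simp only [hl', hab]
  · unfold St.N
    rw [himg, Finset.card_erase_of_mem hymem]
    have : 0 < (univ.image s.l).card := Finset.card_pos.2 ⟨_, hymem⟩
    omega
  · unfold St.C
    change ∑ v ∈ univ.image l', c' v = _
    rw [himg, ← Finset.add_sum_erase _ _ hxmem, ← Finset.add_sum_erase (univ.image s.l) _ hymem,
      ← Finset.add_sum_erase _ s.c hxmem]
    have h1 : c' (s.l x) = s.c (s.l x) + s.c (s.l y) + 2 * w := by simp [hc']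
    have h2 : ∑ v ∈ ((univ.image s.l).erase (s.l y)).erase (s.l x), c' v
        = ∑ v ∈ ((univ.image s.l).erase (s.l y)).erase (s.l x), s.c v := by
      refine Finset.sum_congr rfl fun v hv => ?_
      have : v ≠ s.l x := (Finset.mem_erase.1 hv).1
      simp [hc', this]
    rw [h1, h2]
    ring

lemma merge_all {w : ℕ} (hw1 : 1 ≤ w) (hw : w ≤ B) :
    ∀ (m : ℕ) (s : St μ B), s.N ≤ m → ∃ s' : St μ B, (∀ a b, s.l a = s.l b → s'.l a = s'.l b) ∧
      (∀ a b, 1 / 2 ≤ hopP μ w a b → 1 / 2 ≤ hopP μ w b a → s'.l a = s'.l b) ∧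
      s'.C + 2 * w * s'.N = s.C + 2 * w * s.N := by
  intro m
  induction m with
  | zero =>
    intro s hs
    refine ⟨s, fun a b h => h, ?_, rfl⟩
    intro a b _ _
    exfalso
    have : 0 < s.N := Finset.card_pos.2 ⟨s.l a, Finset.mem_image_of_mem _ (Finset.mem_univ _)⟩
    omega
  | succ m ih =>
    intro s hs
    by_cases h : ∃ x y, 1 / 2 ≤ hopP μ w x y ∧ 1 / 2 ≤ hopP μ w y x ∧ s.l x ≠ s.l y
    · obtain ⟨x, y, hxy, hyx, hne⟩ := h
      obtain ⟨s₁, h1, h2, h3⟩ := merge_one hw1 hw s hxy hyx hne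
      obtain ⟨s₂, h4, h5, h6⟩ := ih s₁ (by omega)
      refine ⟨s₂, fun a b hab => h4 a b (h1 a b hab), h5, ?_⟩
      rw [h6, h3, ← h2]
      ring
    · refine ⟨s, fun a b h => h, ?_, rfl⟩
      intro a b hab hba
      by_contra hne
      exact h ⟨a, b, hab, hba, hne⟩

/-- The initial labelling. -/
def St.init (μ : SimpleGraph V → ℝ) (B : ℕ) : St μ B where
  l := id
  c := fun _ => 0
  trip := by
    intro x
    have : univ.filter (fun y => id y = id x) = {x} := by
      ext y; simp
    rw [this]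
    exact Trip.nil x

lemma exists_next (B : ℕ) (s : St μ B) (j : ℕ) : ∃ s' : St μ B, 2 ^ (j + 1) ≤ B →
    ((∀ a b, s.l a = s.l b → s'.l a = s'.l b) ∧
      (∀ a b, 1 / 2 ≤ hopP μ (2 ^ (j + 1)) a b → 1 / 2 ≤ hopP μ (2 ^ (j + 1)) b a →
        s'.l a = s'.l b) ∧
      s'.C + 2 * 2 ^ (j + 1) * s'.N = s.C + 2 * 2 ^ (j + 1) * s.N) := by
  by_cases h : 2 ^ (j + 1) ≤ B
  · obtain ⟨s', h1, h2, h3⟩ := merge_all (w := 2 ^ (j + 1)) Nat.one_le_two_pow h s.N s le_rfl
    exact ⟨s', fun _ => ⟨h1, h2, h3⟩⟩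
  · exact ⟨s, fun h' => absurd h' h⟩

/-- The sequence of labellings. -/
noncomputable def seq (μ : SimpleGraph V → ℝ) (B : ℕ) : ℕ → St μ B
  | 0 => St.init μ B
  | j + 1 => Classical.choose (exists_next B (seq μ B j) j)

lemma seq_spec (j : ℕ) (hj : 2 ^ (j + 1) ≤ B) :
    (∀ a b, (seq μ B j).l a = (seq μ B j).l b → (seq μ B (j + 1)).l a = (seq μ B (j + 1)).l b) ∧
    (∀ a b, 1 / 2 ≤ hopP μ (2 ^ (j + 1)) a b → 1 / 2 ≤ hopP μ (2 ^ (j + 1)) b a →
        (seq μ B (j + 1)).l a = (seq μ B (j + 1)).l b) ∧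
    (seq μ B (j + 1)).C + 2 * 2 ^ (j + 1) * (seq μ B (j + 1)).N
      = (seq μ B j).C + 2 * 2 ^ (j + 1) * (seq μ B j).N :=
  Classical.choose_spec (exists_next B (seq μ B j) j) hj

lemma seq_zero_C : (seq μ B 0).C = 0 := by
  simp [seq, St.init, St.C]

lemma seq_zero_N : (seq μ B 0).N = Fintype.card V := by
  simp only [seq, St.init, St.N, Finset.image_id]
  exact Finset.card_univ

lemma seq_cost (J : ℕ) (hJ : 2 ^ (J + 1) ≤ B) :
    (seq μ B (J + 1)).C + 2 ^ (J + 2) * (seq μ B (J + 1)).N
      = 4 * Fintype.card V + ∑ j ∈ range J, 2 ^ (j + 2) * (seq μ B (j + 1)).N := by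
  induction J with
  | zero =>
    have := (seq_spec (μ := μ) (B := B) 0 hJ).2.2
    rw [seq_zero_C, seq_zero_N] at this
    simp only [Finset.range_zero, Finset.sum_empty]
    norm_num at this ⊢
    omega
  | succ J ih =>
    have hJ' : 2 ^ (J + 1) ≤ B := le_trans (Nat.pow_le_pow_right (by norm_num) (by omega)) hJ
    have h1 := ih hJ'
    have h2 := (seq_spec (μ := μ) (B := B) (J + 1) hJ).2.2
    rw [Finset.sum_range_succ, ← add_assoc, ← h1]
    have e1 : 2 ^ (J + 1 + 2) = 2 * 2 ^ (J + 1 + 1) := by ring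
    have e2 : 2 ^ (J + 2) = 2 ^ (J + 1 + 1) := by ring
    rw [e1, e2, h2]
    ring

lemma geom_le (J : ℕ) : ∑ j ∈ range J, 2 ^ (j + 2) ≤ 2 ^ (J + 2) := by
  induction J with
  | zero => simp
  | succ J ih =>
    rw [Finset.sum_range_succ]
    have : 2 ^ (J + 1 + 2) = 2 ^ (J + 2) + 2 ^ (J + 2) := by ring
    omega

end Pool.Agent.J4H99.RST
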