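import Pool.Agent.J4H99.RST.Growth
import Pool.Agent.J4H99.RST.Merge

/-!
# The weighted density argument and the cost of a spanning closed trip
-/

namespace Pool.Agent.J4H99.RST

open Finset
open scoped BigOperators Classical

variable {V : Type} [Fintype V] [DecidableEq V]

/-- Sum of a weight over pairs. -/
def sw (a : V → V → ℝ) (A B : Finset V) : ℝ := ∑ x ∈ A, ∑ y ∈ B, a x y

lemma sw_split {a : V → V → ℝ} (hsymm : ∀ x y, a x y = a y x) {S A : Finset V} (hA : A ⊆ S) :
    sw a S S = sw a A A + sw a (S \ A) (S \ A) + 2 * sw a A (S \ A) := by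
  have hS : S = A ∪ (S \ A) := by
    rw [Finset.union_sdiff_of_subset hA]
  have hd : Disjoint A (S \ A) := Finset.disjoint_sdiff
  have hsw : sw a (S \ A) A = sw a A (S \ A) := by
    unfold sw
    rw [Finset.sum_comm]
    exact Finset.sum_congr rfl fun x _ => Finset.sum_congr rfl fun y _ => hsymm _ _
  have h1 : sw a S S = sw a A S + sw a (S \ A) S := by
    unfold sw
    conv_lhs => rw [hS]
    rw [Finset.sum_union hd, Finset.union_sdiff_of_subset hA]
  have h2 : ∀ X : Finset V, sw a X S = sw a X A + sw a X (S \ A) := by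
    intro X
    unfold sw
    rw [← Finset.sum_add_distrib]
    refine Finset.sum_congr rfl fun x _ => ?_
    conv_lhs => rw [hS]
    rw [Finset.sum_union hd]
  rw [h1, h2, h2, hsw]
  ring

lemma dense_set [Nonempty V] {a : V → V → ℝ} (hsymm : ∀ x y, a x y = a y x) {Λ : ℝ}
    (hΛ : 0 ≤ Λ)
    (h : Λ * (Fintype.card V * Real.logb 2 (Fintype.card V)) < sw a univ univ) :
    ∃ S : Finset V, 0 < sw a S S ∧ ∀ A ⊆ S, A.Nonempty →
      Λ / 2 * (A.card * (Real.logb 2 S.card - Real.logb 2 A.card)) ≤ sw a A (S \ A) := by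
  set g : Finset V → ℝ := fun S => sw a S S - Λ * (S.card * Real.logb 2 S.card) with hg
  obtain ⟨S, hSmem, hSmax⟩ := Finset.exists_max_image
    ((univ : Finset (Finset V)).filter fun S => S.Nonempty) (fun S => g S / S.card)
    ⟨univ, by simp⟩
  have hSne : S.Nonempty := (Finset.mem_filter.1 hSmem).2
  have hSpos : (0 : ℝ) < S.card := by exact_mod_cast Finset.card_pos.2 hSne
  have hmax : ∀ A : Finset V, A.Nonempty → g A / A.card ≤ g S / S.card := fun A hA =>
    hSmax A (by simp [hA])
  set ρ := g S / S.card with hρ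
  have hgS : g S = ρ * S.card := by rw [hρ]; field_simp
  have hgA : ∀ A : Finset V, A.Nonempty → g A ≤ ρ * A.card := by
    intro A hA
    have hApos : (0 : ℝ) < A.card := by exact_mod_cast Finset.card_pos.2 hA
    have := hmax A hA
    rwa [div_le_iff₀ hApos] at this
  have hnpos : (0 : ℝ) < (univ : Finset V).card := by
    exact_mod_cast Finset.card_pos.2 Finset.univ_nonempty
  have hgV : 0 < g univ := by
    simp only [hg, Finset.card_univ]
    linarith
  have hρpos : 0 < ρ := by
    have h1 := hmax univ Finset.univ_nonempty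
    exact lt_of_lt_of_le (div_pos hgV hnpos) h1
  refine ⟨S, ?_, ?_⟩
  · have h1 : 0 < g S := by rw [hgS]; exact mul_pos hρpos hSpos
    have h2 : 0 ≤ Λ * (S.card * Real.logb 2 S.card) := by
      refine mul_nonneg hΛ (mul_nonneg hSpos.le (Real.logb_nonneg (by norm_num) ?_))
      exact_mod_cast Finset.card_pos.2 hSne
    simp only [hg] at h1
    linarith
  · intro A hAS hA
    have hApos : (0 : ℝ) < A.card := by exact_mod_cast Finset.card_pos.2 hA
    rcases (S \ A).eq_empty_or_nonempty with hB | hB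
    · have hAS' : A = S := by
        apply Finset.Subset.antisymm hAS
        exact Finset.sdiff_eq_empty_iff_subset.1 hB
      subst hAS'
      rw [hB]
      simp [sw]
    · have hBpos : (0 : ℝ) < (S \ A).card := by exact_mod_cast Finset.card_pos.2 hB
      have hcard : ((S \ A).card : ℝ) + A.card = S.card := by
        exact_mod_cast Finset.card_sdiff_add_card_eq_card hAS
      have h1 := hgA A hA
      have h2 := hgA (S \ A) hB
      have h3 : g A + g (S \ A) ≤ g S := by
        rw [hgS, ← hcard]; linarith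
      have h4 := sw_split hsymm hAS
      simp only [hg] at h3
      have hBle : Real.logb 2 (S \ A).card ≤ Real.logb 2 S.card :=
        Real.logb_le_logb_of_le (by norm_num) hBpos (by linarith)
      have h5 : 0 ≤ Λ * ((S \ A).card * (Real.logb 2 S.card - Real.logb 2 (S \ A).card)) :=
        mul_nonneg hΛ (mul_nonneg hBpos.le (by linarith))
      have h6 : Λ * (S.card * Real.logb 2 S.card) = Λ * (A.card * Real.logb 2 S.card)
          + Λ * ((S \ A).card * Real.logb 2 S.card) := by
        rw [← hcard]; ring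
      nlinarith

variable {μ : SimpleGraph V → ℝ}

lemma pe_nonneg (h0 : ∀ G, 0 ≤ μ G) (x y : V) : 0 ≤ pe μ x y :=
  Finset.sum_nonneg fun G _ => mul_nonneg (h0 G) (ind_nonneg _)

lemma pe_symm (x y : V) : pe μ x y = pe μ y x := by
  unfold pe
  exact Finset.sum_congr rfl fun G _ => by rw [G.adj_comm]

/-- The crossing weight at scale `j`. -/
noncomputable def cw (μ : SimpleGraph V → ℝ) (B j : ℕ) (x y : V) : ℝ :=
  if (seq μ B (j + 1)).l x ≠ (seq μ B (j + 1)).l y then pe μ x y else 0

lemma cw_nonneg (h0 : ∀ G, 0 ≤ μ G) (B j : ℕ) (x y : V) : 0 ≤ cw μ B j x y := by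
  unfold cw; split_ifs
  · exact pe_nonneg h0 x y
  · exact le_rfl

lemma cw_le (h0 : ∀ G, 0 ≤ μ G) (B j : ℕ) (x y : V) : cw μ B j x y ≤ pe μ x y := by
  unfold cw; split_ifs
  · exact le_rfl
  · exact pe_nonneg h0 x y

lemma cw_symm (B j : ℕ) (x y : V) : cw μ B j x y = cw μ B j y x := by
  unfold cw
  rw [pe_symm x y]
  simp only [ne_comm (a := (seq μ B (j + 1)).l x)]

/-- The total weight. -/
noncomputable def ast (μ : SimpleGraph V → ℝ) (B J : ℕ) (x y : V) : ℝ :=
  ∑ j ∈ range J, 2 ^ j * cw μ B j x y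

lemma ast_symm (B J : ℕ) (x y : V) : ast μ B J x y = ast μ B J y x := by
  unfold ast
  exact Finset.sum_congr rfl fun j _ => by rw [cw_symm]

lemma ast_bound [Nonempty V] (h0 : ∀ G, 0 ≤ μ G) (h1 : ∑ G, μ G = 1) {d : ℕ} (hd1 : 1 ≤ d)
    (hd : ∀ G, μ G ≠ 0 → DegLe G d) (hn : 2 ≤ Fintype.card V) {B J : ℕ} (hB : 2 ^ (J + 1) ≤ B) :
    sw (ast μ B J) univ univ ≤ 4 * d * Real.log (4 * Real.logb 2 (Fintype.card V)) *
      (Fintype.card V * Real.logb 2 (Fintype.card V)) := by
  set n := Fintype.card V with hndef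
  have hlogn : (1 : ℝ) ≤ Real.logb 2 n := by
    rw [Real.le_logb_iff_rpow_le (by norm_num) (by positivity), Real.rpow_one]
    exact_mod_cast hn
  set Λ : ℝ := 4 * d * Real.log (4 * Real.logb 2 n) with hΛdef
  have hdpos : (0 : ℝ) < d := by exact_mod_cast hd1
  have hΛ : 0 ≤ Λ := by
    have : 0 ≤ Real.log (4 * Real.logb 2 n) := Real.log_nonneg (by linarith)
    positivity
  by_contra hcon
  push Not at hcon
  obtain ⟨S, hSpos, hS⟩ := dense_set (ast_symm B J) hΛ hcon
  -- some scale separates two points of `S`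
  have hex : ∃ j ∈ range J, ∃ x ∈ S, ∃ y ∈ S,
      (seq μ B (j + 1)).l x ≠ (seq μ B (j + 1)).l y := by
    by_contra hno
    push Not at hno
    have : sw (ast μ B J) S S = 0 := by
      unfold sw
      refine Finset.sum_eq_zero fun x hx => Finset.sum_eq_zero fun y hy => ?_
      unfold ast
      refine Finset.sum_eq_zero fun j hj => ?_
      unfold cw
      rw [if_neg (not_not.2 (hno j hj x hx y hy)), mul_zero]
    linarith
  obtain ⟨j₀, hj₀mem, hj₀max⟩ := Finset.exists_max_image
    ((range J).filter fun j => ∃ x ∈ S, ∃ y ∈ S,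
      (seq μ B (j + 1)).l x ≠ (seq μ B (j + 1)).l y) id
    (by obtain ⟨j, hj, h⟩ := hex; exact ⟨j, Finset.mem_filter.2 ⟨hj, h⟩⟩)
  obtain ⟨hj₀J, x, hx, y, hy, hxy⟩ := Finset.mem_filter.1 hj₀mem
  have hj₀J' : j₀ < J := Finset.mem_range.1 hj₀J
  have hle : ∀ u ∈ S, ∀ v ∈ S, ast μ B J u v ≤ 2 ^ (j₀ + 1) * pe μ u v := by
    intro u hu v hv
    unfold ast
    have hzero : ∀ j ∈ range J, j ∉ range (j₀ + 1) → 2 ^ j * cw μ B j u v = 0 := by
      intro j hj hj'
      have hjgt : j₀ < j := by
        rw [Finset.mem_range] at hj'; omega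
      unfold cw
      rw [if_neg, mul_zero]
      intro hne
      have := hj₀max j (Finset.mem_filter.2 ⟨hj, u, hu, v, hv, hne⟩)
      simp only [id] at this
      omega
    have hsub : range (j₀ + 1) ⊆ range J := by
      intro j hj
      rw [Finset.mem_range] at hj ⊢
      omega
    rw [← Finset.sum_subset hsub hzero]
    calc ∑ j ∈ range (j₀ + 1), (2 : ℝ) ^ j * cw μ B j u v
        ≤ ∑ j ∈ range (j₀ + 1), (2 : ℝ) ^ j * pe μ u v :=
          Finset.sum_le_sum fun j _ =>
            mul_le_mul_of_nonneg_left (cw_le h0 B j u v) (by positivity)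
      _ = (∑ j ∈ range (j₀ + 1), (2 : ℝ) ^ j) * pe μ u v := by rw [Finset.sum_mul]
      _ ≤ 2 ^ (j₀ + 1) * pe μ u v := by
          refine mul_le_mul_of_nonneg_right ?_ (pe_nonneg h0 u v)
          rw [geom_sum_eq (by norm_num)]
          norm_num
  set κ : ℝ := Λ / (d * 2 ^ (j₀ + 2)) with hκ
  have hκ0 : 0 ≤ κ := div_nonneg hΛ (by positivity)
  have hLE : LogExp μ d κ S := by
    intro A hA hAne
    have h3 := hS A hA hAne
    have h4 : sw (ast μ B J) A (S \ A) ≤ 2 ^ (j₀ + 1) * pS μ A (S \ A) := by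
      unfold sw pS
      rw [Finset.mul_sum]
      refine Finset.sum_le_sum fun u hu => ?_
      rw [Finset.mul_sum]
      exact Finset.sum_le_sum fun v hv => hle u (hA hu) v (Finset.mem_sdiff.1 hv).1
    have h5 : d * κ = Λ / 2 / 2 ^ (j₀ + 1) := by
      rw [hκ]; field_simp; ring
    have h2pos : (0 : ℝ) < 2 ^ (j₀ + 1) := by positivity
    rw [h5, mul_assoc, div_mul_eq_mul_div, div_le_iff₀ h2pos]
    linarith
  have hS2 : 2 ≤ S.card := by
    have hne : x ≠ y := fun h => hxy (by rw [h])
    have : ({x, y} : Finset V) ⊆ S := by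
      intro z hz
      rcases Finset.mem_insert.1 hz with rfl | hz
      · exact hx
      · rw [Finset.mem_singleton] at hz; subst hz; exact hy
    calc 2 = ({x, y} : Finset V).card := (Finset.card_pair hne).symm
      _ ≤ S.card := Finset.card_le_card this
  have ht : 4 * Real.logb 2 S.card ≤ Real.exp (κ * ((2 ^ j₀ : ℕ) : ℝ)) := by
    have h6 : κ * ((2 ^ j₀ : ℕ) : ℝ) = Real.log (4 * Real.logb 2 n) := by
      rw [hκ, hΛdef]
      push_cast
      field_simp
      ring
    rw [h6, Real.exp_log (by linarith)]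
    have hSn : (S.card : ℝ) ≤ n := by
      exact_mod_cast Finset.card_le_univ S
    have := Real.logb_le_logb_of_le (b := 2) (by norm_num)
      (by exact_mod_cast (by omega : 0 < S.card)) hSn
    linarith
  have hhop : ∀ u ∈ S, ∀ v ∈ S, 1 / 2 ≤ hopP μ (2 ^ (j₀ + 1)) u v := by
    intro u hu v hv
    have := hop_of_LogExp h0 h1 hd1 hd hκ0 hLE hS2 ht hu hv
    have e : 2 ^ j₀ + 2 ^ j₀ = 2 ^ (j₀ + 1) := by ring
    rwa [e] at this
  have hBj : 2 ^ (j₀ + 1) ≤ B :=
    le_trans (Nat.pow_le_pow_right (by norm_num) (by omega)) hB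
  exact hxy ((seq_spec (μ := μ) (B := B) j₀ hBj).2.1 x y (hhop x hx y hy) (hhop y hy x hx))

/-- Every class has, in each connected snapshot, an edge leaving it. -/
lemma N_le_cross (h0 : ∀ G, 0 ≤ μ G) (h1 : ∑ G, μ G = 1)
    (hc : ∀ G, μ G ≠ 0 → G.Connected) (B j : ℕ) (hN : 2 ≤ (seq μ B (j + 1)).N) :
    ((seq μ B (j + 1)).N : ℝ) ≤ ∑ x, ∑ y, cw μ B j x y := by
  set l := (seq μ B (j + 1)).l with hl
  have hG : ∀ G : SimpleGraph V, G.Connected →
      ((seq μ B (j + 1)).N : ℝ) ≤ ∑ x, ∑ y, (if l x ≠ l y then ind (G.Adj x y) else 0) := by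
    intro G hG
    have hsum : ∑ x, ∑ y, (if l x ≠ l y then ind (G.Adj x y) else 0)
        = (((univ : Finset (V × V)).filter fun e => l e.1 ≠ l e.2 ∧ G.Adj e.1 e.2).card : ℝ) := by
      rw [Finset.card_filter]
      push_cast
      rw [← Finset.univ_product_univ, Finset.sum_product]
      refine Finset.sum_congr rfl fun x _ => Finset.sum_congr rfl fun y _ => ?_
      by_cases h : l x ≠ l y
      · rw [if_pos h]
        unfold ind
        simp [h]
      · rw [if_neg h, if_neg]
        exact fun h' => h h'.1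
    rw [hsum]
    have himg : univ.image l ⊆
        ((univ : Finset (V × V)).filter fun e => l e.1 ≠ l e.2 ∧ G.Adj e.1 e.2).image
          (fun e => l e.1) := by
      intro v hv
      obtain ⟨x, _, rfl⟩ := Finset.mem_image.1 hv
      -- another class
      have hex : ∃ y, l y ≠ l x := by
        by_contra hno
        push Not at hno
        have : univ.image l = {l x} := by
          ext u
          simp only [Finset.mem_image, Finset.mem_univ, true_and, Finset.mem_singleton]
          constructor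
          · rintro ⟨a, rfl⟩; exact hno a
          · rintro rfl; exact ⟨x, rfl⟩
        have h2 : (seq μ B (j + 1)).N = 1 := by
          unfold St.N
          rw [← hl, this, Finset.card_singleton]
        omega
      obtain ⟨y, hy⟩ := hex
      obtain ⟨p⟩ := hG.preconnected x y
      obtain ⟨e, _, he1, he2⟩ := p.exists_boundary_dart {z | l z = l x} rfl (by simpa using hy)
      have he1' : l e.fst = l x := he1
      have he2' : ¬ l e.snd = l x := he2
      refine Finset.mem_image.2 ⟨(e.fst, e.snd), ?_, he1'⟩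
      refine Finset.mem_filter.2 ⟨Finset.mem_univ _, ?_, e.adj⟩
      intro h
      exact he2' (h.symm.trans he1')
    have := (Finset.card_le_card himg).trans Finset.card_image_le
    unfold St.N
    exact_mod_cast this
  have hcw : ∑ x, ∑ y, cw μ B j x y
      = ∑ G, μ G * ∑ x, ∑ y, (if l x ≠ l y then ind (G.Adj x y) else 0) := by
    simp only [Finset.mul_sum]
    rw [Finset.sum_comm (s := (univ : Finset (SimpleGraph V)))]
    refine Finset.sum_congr rfl fun x _ => ?_
    rw [Finset.sum_comm (s := (univ : Finset (SimpleGraph V)))]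
    refine Finset.sum_congr rfl fun y _ => ?_
    unfold cw pe
    rw [← hl]
    split_ifs with h
    · simp
    · simp
  rw [hcw]
  calc ((seq μ B (j + 1)).N : ℝ) = ∑ G, μ G * ((seq μ B (j + 1)).N : ℝ) := by
        rw [← Finset.sum_mul, h1, one_mul]
    _ ≤ _ := by
        refine Finset.sum_le_sum fun G _ => ?_
        by_cases h : μ G = 0
        · simp [h]
        · exact mul_le_mul_of_nonneg_left (hG G (hc G h)) (h0 G)

/-- There is a closed trip through all vertices of small cost. -/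
lemma closed_trip [Nonempty V] (h0 : ∀ G, 0 ≤ μ G) (h1 : ∑ G, μ G = 1)
    (hc : ∀ G, μ G ≠ 0 → G.Connected) {d : ℕ} (hd1 : 1 ≤ d)
    (hd : ∀ G, μ G ≠ 0 → DegLe G d) (hn : 2 ≤ Fintype.card V) (s : V) :
    ∃ c : ℕ, Trip μ (2 * Fintype.card V) s s univ c ∧
      (c : ℝ) ≤ 4 * Fintype.card V + 4 * (4 * d * Real.log (4 * Real.logb 2 (Fintype.card V)) *
      (Fintype.card V * Real.logb 2 (Fintype.card V))) := by
  set n := Fintype.card V with hndef
  set B := 2 * n with hBdef
  set J := Nat.log 2 n with hJdef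
  have hJ1 : 2 ^ (J + 1) ≤ B := by
    have : 2 ^ J ≤ n := Nat.pow_log_le_self 2 (by omega)
    rw [hBdef, pow_succ]; omega
  have hJ2 : n < 2 ^ (J + 1) := Nat.lt_pow_succ_log_self (by norm_num) n
  have hbound := ast_bound h0 h1 hd1 hd hn hJ1
  -- all merged at the last scale
  have hall : ∀ a b, (seq μ B (J + 1)).l a = (seq μ B (J + 1)).l b := fun a b =>
    (seq_spec (μ := μ) (B := B) J hJ1).2.1 a b (hopP_full h0 h1 hc hJ2.le a b)
      (hopP_full h0 h1 hc hJ2.le b a)
  have himg : univ.image (seq μ B (J + 1)).l = {(seq μ B (J + 1)).l s} := by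
    ext u
    simp only [Finset.mem_image, Finset.mem_univ, true_and, Finset.mem_singleton]
    constructor
    · rintro ⟨a, rfl⟩; exact hall a s
    · rintro rfl; exact ⟨s, rfl⟩
  have hN1 : (seq μ B (J + 1)).N = 1 := by
    unfold St.N; rw [himg, Finset.card_singleton]
  have hC : (seq μ B (J + 1)).C = (seq μ B (J + 1)).c ((seq μ B (J + 1)).l s) := by
    unfold St.C; rw [himg, Finset.sum_singleton]
  have htrip := (seq μ B (J + 1)).trip s
  have huniv : univ.filter (fun y => (seq μ B (J + 1)).l y = (seq μ B (J + 1)).l s) = univ := by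
    ext y; simp [hall y s]
  rw [huniv, ← hC] at htrip
  refine ⟨_, htrip, ?_⟩
  have hcost := seq_cost (μ := μ) (B := B) J hJ1
  rw [hN1, mul_one] at hcost
  have hNpos : ∀ j, 1 ≤ (seq μ B (j + 1)).N := fun j =>
    Finset.card_pos.2 ⟨_, Finset.mem_image_of_mem _ (Finset.mem_univ s)⟩
  have hNr : ∀ j, ((seq μ B (j + 1)).N : ℝ) - 1 ≤ ∑ x, ∑ y, cw μ B j x y := by
    intro j
    by_cases h2 : 2 ≤ (seq μ B (j + 1)).N
    · have := N_le_cross h0 h1 hc B j h2
      linarith
    · have h3 : (seq μ B (j + 1)).N = 1 := by have := hNpos j; omega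
      rw [h3]
      have : 0 ≤ ∑ x, ∑ y, cw μ B j x y :=
        Finset.sum_nonneg fun x _ => Finset.sum_nonneg fun y _ => cw_nonneg h0 B j x y
      simpa using this
  have hcostR : ((seq μ B (J + 1)).C : ℝ) + 2 ^ (J + 2)
      = 4 * n + ∑ j ∈ range J, (2 : ℝ) ^ (j + 2) * (seq μ B (j + 1)).N := by
    exact_mod_cast hcost
  have hgeom : ∑ j ∈ range J, (2 : ℝ) ^ (j + 2) ≤ 2 ^ (J + 2) := by
    exact_mod_cast geom_le J
  have hsw : sw (ast μ B J) univ univ = ∑ j ∈ range J, 2 ^ j * ∑ x, ∑ y, cw μ B j x y := by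
    unfold sw ast
    calc ∑ x, ∑ y, ∑ j ∈ range J, (2 : ℝ) ^ j * cw μ B j x y
        = ∑ x, ∑ j ∈ range J, ∑ y, (2 : ℝ) ^ j * cw μ B j x y :=
          Finset.sum_congr rfl fun x _ => Finset.sum_comm
      _ = ∑ j ∈ range J, ∑ x, ∑ y, (2 : ℝ) ^ j * cw μ B j x y := Finset.sum_comm
      _ = _ := by simp only [Finset.mul_sum]
  have hfin : ∑ j ∈ range J, (2 : ℝ) ^ (j + 2) * (seq μ B (j + 1)).N
      ≤ 2 ^ (J + 2) + 4 * sw (ast μ B J) univ univ := by
    calc ∑ j ∈ range J, (2 : ℝ) ^ (j + 2) * (seq μ B (j + 1)).N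
        ≤ ∑ j ∈ range J, ((2 : ℝ) ^ (j + 2) + 4 * (2 ^ j * ∑ x, ∑ y, cw μ B j x y)) := by
          refine Finset.sum_le_sum fun j _ => ?_
          have h2 : (0 : ℝ) < 2 ^ j := by positivity
          have := mul_le_mul_of_nonneg_left (hNr j) (by positivity : (0 : ℝ) ≤ 2 ^ (j + 2))
          have e : (2 : ℝ) ^ (j + 2) = 4 * 2 ^ j := by ring
          rw [e] at this ⊢
          linarith
      _ = ∑ j ∈ range J, (2 : ℝ) ^ (j + 2)
          + 4 * ∑ j ∈ range J, 2 ^ j * ∑ x, ∑ y, cw μ B j x y := by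
          rw [Finset.sum_add_distrib, Finset.mul_sum]
      _ ≤ _ := by rw [hsw]; linarith
  linarith

end Pool.Agent.J4H99.RST
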