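import Pool.Agent.J4H99.RST.Core

/-!
# From words to functions, and the final estimate
-/

namespace Pool.Agent.J4H99.RST

open Finset
open scoped BigOperators Classical

section
variable {V : Type} [Fintype V] [DecidableEq V] {μ : SimpleGraph V → ℝ}

lemma sum_eq_Ex (T : ℕ) (f : List (SimpleGraph V) → ℝ) :
    ∑ ω : Fin T → SimpleGraph V, (∏ i, μ (ω i)) * f (List.ofFn ω) = Ex μ T f := by
  induction T generalizing f with
  | zero => simp [Ex]
  | succ T ih =>
    rw [← (Fin.consEquiv (fun _ : Fin (T + 1) => SimpleGraph V)).sum_comp,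
      Fintype.sum_prod_type]
    simp only [Ex]
    refine Finset.sum_congr rfl fun G _ => ?_
    rw [← ih, Finset.mul_sum]
    refine Finset.sum_congr rfl fun ω _ => ?_
    simp only [Fin.consEquiv_apply, Fin.prod_univ_succ, Fin.cons_zero, Fin.cons_succ,
      List.ofFn_succ]
    ring

lemma TW_fun : ∀ (T : ℕ) (ω : Fin T → SimpleGraph V) (x z : V) (A : Finset V),
    TW (List.ofFn ω) x z A →
    ∃ v : Fin (T + 1) → V, v 0 = x ∧
      (∀ i : Fin T, v i.succ = v i.castSucc ∨ (ω i).Adj (v i.castSucc) (v i.succ)) ∧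
      ∀ a ∈ A, ∃ i, v i = a := by
  intro T
  induction T with
  | zero =>
    intro ω x z A h
    simp only [List.ofFn_zero] at h
    cases h
    refine ⟨fun _ => x, rfl, fun i => i.elim0, ?_⟩
    intro a ha
    rw [Finset.mem_singleton] at ha
    exact ⟨0, ha.symm⟩
  | succ T ih =>
    intro ω x z A h
    rw [List.ofFn_succ] at h
    cases h with
    | @cons _ _ _ y _ A' hxy htail =>
      obtain ⟨v, hv0, hv1, hv2⟩ := ih _ y z A' htail
      refine ⟨Fin.cons x v, rfl, ?_, ?_⟩
      · intro i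
        refine Fin.cases ?_ (fun i => ?_) i
        · simp only [Fin.castSucc_zero, Fin.cons_zero, Fin.cons_succ, hv0]
          exact hxy
        · have := hv1 i
          simpa only [← Fin.succ_castSucc, Fin.cons_succ] using this
      · intro a ha
        rcases Finset.mem_insert.1 ha with rfl | ha
        · exact ⟨0, rfl⟩
        · obtain ⟨i, hi⟩ := hv2 a ha
          exact ⟨i.succ, by simpa using hi⟩

/-- Main estimate in terms of words. -/
lemma main_fail [Nonempty V] (h0 : ∀ G, 0 ≤ μ G) (h1 : ∑ G, μ G = 1)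
    (hc : ∀ G, μ G ≠ 0 → G.Connected) {d : ℕ} (hd1 : 1 ≤ d)
    (hd : ∀ G, μ G ≠ 0 → DegLe G d) (hn : 2 ≤ Fintype.card V) (s : V) (T : ℕ)
    (hT : 16 * (Fintype.card V : ℝ) + 64 * (d * Real.log (4 * Real.logb 2 (Fintype.card V)) *
      (Fintype.card V * Real.logb 2 (Fintype.card V)))
        + 8 * (Fintype.card V * Real.log (Fintype.card V)) ≤ T) :
    fail μ T s s univ ≤ 1 / Fintype.card V := by
  set n := Fintype.card V with hndef
  have hnpos : (0 : ℝ) < n := by exact_mod_cast (by omega : 0 < n)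
  obtain ⟨c, htrip, hcc⟩ := closed_trip h0 h1 hc hd1 hd hn s
  rw [← hndef] at htrip hcc
  have hθ : (0 : ℝ) ≤ 1 / (8 * n) := by positivity
  have hθB : 1 / (8 * (n : ℝ)) * ((2 * n : ℕ) : ℝ) ≤ 1 / 4 := by
    push_cast
    rw [div_mul_eq_mul_div, div_le_iff₀ (by positivity)]
    linarith
  have := htrip.exec h0 h1 hθ hθB T
  refine this.trans ?_
  have hlog : 1 / (n : ℝ) = Real.exp (-Real.log n) := by
    rw [Real.exp_neg, Real.exp_log hnpos, one_div]
  rw [hlog]
  apply Real.exp_le_exp.2
  rw [div_mul_eq_mul_div, one_mul, div_le_iff₀ (by positivity)]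
  nlinarith

end

lemma deg_conv {n d : ℕ} {G : SimpleGraph (Fin n)} (h : ∀ v, (G.neighborSet v).ncard ≤ d) :
    DegLe G d := by
  intro v
  have := h v
  rw [Set.ncard_eq_toFinset_card'] at this
  convert this using 2
  ext w
  simp

lemma numeric {n d : ℕ} (hn : 16 ≤ n) (hd : 1 ≤ d) {T : ℝ}
    (hT : 300 * d * n * Real.log n * Real.log (Real.log n) ≤ T) :
    16 * (n : ℝ) + 64 * (d * Real.log (4 * Real.logb 2 n) * (n * Real.logb 2 n))
      + 8 * (n * Real.log n) ≤ T := by
  have hl2 := Real.log_two_gt_d9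
  have hl2' := Real.log_two_lt_d9
  have hnr : (16 : ℝ) ≤ n := by exact_mod_cast hn
  have hdr : (1 : ℝ) ≤ d := by exact_mod_cast hd
  have hnpos : (0 : ℝ) < n := by linarith
  set a := Real.log n with ha
  have ha16 : 2.7725 ≤ a := by
    have h1 : Real.log 16 ≤ a := Real.log_le_log (by norm_num) hnr
    have h2 : Real.log 16 = 4 * Real.log 2 := by
      rw [show (16 : ℝ) = 2 ^ (4 : ℕ) by norm_num, Real.log_pow]; norm_num
    rw [h2] at h1
    linarith
  set b := Real.log a with hb
  have hb1 : 1 ≤ b := by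
    rw [hb, Real.le_log_iff_exp_le (by linarith)]
    have := Real.exp_one_lt_d9
    linarith
  have hlb : Real.logb 2 n = a / Real.log 2 := rfl
  have hlb0 : 0 ≤ Real.logb 2 n := by rw [hlb]; positivity
  have hlb1 : Real.logb 2 n ≤ 1.443 * a := by
    rw [hlb, div_le_iff₀ (by linarith)]
    nlinarith
  have hlog4 : Real.log (4 * Real.logb 2 n) ≤ 3 * b := by
    have h3 : 4 * Real.logb 2 n ≤ a ^ 3 := by
      have : (7.6 : ℝ) ≤ a ^ 2 := by nlinarith
      calc 4 * Real.logb 2 n ≤ 5.8 * a := by linarith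
        _ ≤ a ^ 2 * a := by nlinarith
        _ = a ^ 3 := by ring
    have h4 : (0 : ℝ) < 4 * Real.logb 2 n := by
      have : 0 < Real.logb 2 n := by rw [hlb]; positivity
      linarith
    calc Real.log (4 * Real.logb 2 n) ≤ Real.log (a ^ 3) := Real.log_le_log h4 h3
      _ = 3 * b := by rw [Real.log_pow]; norm_num [hb]
  have hab : (2.7725 : ℝ) ≤ a * b := by nlinarith
  have h5 : 64 * (d * Real.log (4 * Real.logb 2 n) * (n * Real.logb 2 n))
      ≤ 64 * (d * (3 * b) * (n * (1.443 * a))) := by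
    have hx : d * Real.log (4 * Real.logb 2 n) ≤ d * (3 * b) :=
      mul_le_mul_of_nonneg_left hlog4 (by linarith)
    have hy : n * Real.logb 2 n ≤ n * (1.443 * a) :=
      mul_le_mul_of_nonneg_left hlb1 hnpos.le
    have := mul_le_mul hx hy (by positivity) (by positivity)
    linarith
  have hdn : (0 : ℝ) < d * n := by positivity
  have h6 : 16 * (n : ℝ) ≤ 6 * (d * n * (a * b)) := by
    have h61 : (16 : ℝ) ≤ 6 * (a * b) := by linarith
    have h62 : (n : ℝ) ≤ d * n := by nlinarith
    have h63 : (0 : ℝ) ≤ a * b := by linarith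
    nlinarith
  have h7 : 8 * (n * a) ≤ 8 * (d * n * (a * b)) := by
    have h71 : n * a ≤ d * n * (a * b) := by
      have h72 : a ≤ a * b := by nlinarith
      have h73 : (n : ℝ) ≤ d * n := by nlinarith
      exact mul_le_mul h73 h72 (by linarith) hdn.le
    linarith
  have h8 : 64 * (d * (3 * b) * (n * (1.443 * a))) ≤ 278 * (d * n * (a * b)) := by
    have : (0 : ℝ) ≤ d * n * (a * b) := by positivity
    nlinarith
  have h9 : (292 : ℝ) * (d * n * (a * b)) ≤ 300 * d * n * a * b := by
    have : (0 : ℝ) ≤ d * n * (a * b) := by positivity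
    nlinarith
  linarith

end Pool.Agent.J4H99.RST
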