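import Pool.Agent.J4H99.RST.Basic

/-!
# Growth of the reachable set inside a set with logarithmic expansion
-/

namespace Pool.Agent.J4H99.RST

open Finset
open scoped BigOperators Classical

variable {V : Type} [Fintype V] [DecidableEq V] {μ : SimpleGraph V → ℝ}

/-- Probability that `xy` is an edge of the snapshot. -/
noncomputable def pe (μ : SimpleGraph V → ℝ) (x y : V) : ℝ := ∑ G, μ G * ind (G.Adj x y)

/-- Expected number of edges between `A` and `B`. -/
noncomputable def pS (μ : SimpleGraph V → ℝ) (A B : Finset V) : ℝ :=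
  ∑ x ∈ A, ∑ y ∈ B, pe μ x y

/-- The degree condition. -/
def DegLe (G : SimpleGraph V) (d : ℕ) : Prop :=
  ∀ v, (univ.filter (fun w => G.Adj v w)).card ≤ d

noncomputable def eG (G : SimpleGraph V) (A B : Finset V) : ℝ :=
  ∑ x ∈ A, ∑ y ∈ B, ind (G.Adj x y)

lemma pS_eq (A B : Finset V) : pS μ A B = ∑ G, μ G * eG G A B := by
  unfold pS pe eG
  simp only [Finset.mul_sum]
  calc ∑ x ∈ A, ∑ y ∈ B, ∑ G, μ G * ind (G.Adj x y)
      = ∑ x ∈ A, ∑ G, ∑ y ∈ B, μ G * ind (G.Adj x y) :=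
        Finset.sum_congr rfl fun x _ => Finset.sum_comm
    _ = ∑ G, ∑ x ∈ A, ∑ y ∈ B, μ G * ind (G.Adj x y) := Finset.sum_comm

lemma eG_nonneg (G : SimpleGraph V) (A B : Finset V) : 0 ≤ eG G A B :=
  Finset.sum_nonneg fun _ _ => Finset.sum_nonneg fun _ _ => ind_nonneg _

lemma sum_ind_eq {α : Type} (B : Finset α) (P : α → Prop) :
    ∑ y ∈ B, ind (P y) = ((B.filter P).card : ℝ) := by
  simp [ind, Finset.sum_ite]

lemma sum_ind_le {G : SimpleGraph V} {d : ℕ} (hd : DegLe G d) (x : V) (B : Finset V) :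
    ∑ y ∈ B, ind (G.Adj x y) ≤ d := by
  rw [sum_ind_eq]
  have : (B.filter (fun y => G.Adj x y)).card ≤ d :=
    le_trans (Finset.card_le_card (Finset.filter_subset_filter _ (Finset.subset_univ B))) (hd x)
  exact_mod_cast this

lemma eG_le_left {G : SimpleGraph V} {d : ℕ} (hd : DegLe G d) (A B : Finset V) :
    eG G A B ≤ d * A.card := by
  calc eG G A B ≤ ∑ x ∈ A, (d : ℝ) := Finset.sum_le_sum fun x _ => sum_ind_le hd x B
    _ = d * A.card := by rw [Finset.sum_const, nsmul_eq_mul]; ring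

lemma eG_le_nbr {G : SimpleGraph V} {d : ℕ} (hd : DegLe G d) (A B : Finset V) :
    eG G A B ≤ d * (B.filter (fun y => ∃ x ∈ A, G.Adj x y)).card := by
  unfold eG
  rw [Finset.sum_comm]
  calc ∑ y ∈ B, ∑ x ∈ A, ind (G.Adj x y)
      ≤ ∑ y ∈ B, (if ∃ x ∈ A, G.Adj x y then (d : ℝ) else 0) := by
        refine Finset.sum_le_sum fun y _ => ?_
        split_ifs with h
        · have := sum_ind_le hd y A
          simpa only [G.adj_comm] using this
        · rw [Finset.sum_eq_zero]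
          intro x hx
          exact ind_false fun h' => h ⟨x, hx, h'⟩
    _ = d * (B.filter (fun y => ∃ x ∈ A, G.Adj x y)).card := by
        rw [← Finset.sum_filter, Finset.sum_const, nsmul_eq_mul]; ring

lemma logb_one_add {u : ℝ} (h0 : 0 ≤ u) (h1 : u ≤ 1) : u ≤ Real.logb 2 (1 + u) := by
  rw [Real.le_logb_iff_rpow_le (by norm_num) (by linarith)]
  have := rpow_one_add_le_one_add_mul_self (s := 1) (by norm_num) h0 h1
  norm_num at this
  linarith

lemma growth_det {G : SimpleGraph V} {d : ℕ} (hd1 : 1 ≤ d) (hd : DegLe G d)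
    (S X : Finset V) (hX : (X ∩ S).Nonempty) :
    Real.logb 2 (X ∩ S).card + eG G (X ∩ S) (S \ (X ∩ S)) / (d * (X ∩ S).card)
      ≤ Real.logb 2 (step G X ∩ S).card := by
  set A := X ∩ S with hA
  set N := (S \ A).filter (fun y => ∃ x ∈ A, G.Adj x y) with hN
  have hApos : (0 : ℝ) < A.card := by exact_mod_cast Finset.card_pos.2 hX
  have hdpos : (0 : ℝ) < d := by exact_mod_cast hd1
  have hsub : A ∪ N ⊆ step G X ∩ S := by
    intro y hy
    rcases Finset.mem_union.1 hy with h | h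
    · have h' := Finset.mem_inter.1 (hA ▸ h)
      exact Finset.mem_inter.2 ⟨subset_step _ _ h'.1, h'.2⟩
    · rw [hN, Finset.mem_filter, Finset.mem_sdiff] at h
      obtain ⟨⟨h1, _⟩, x, hx, hadj⟩ := h
      have hx' := Finset.mem_inter.1 (hA ▸ hx)
      exact Finset.mem_inter.2 ⟨mem_step.2 (Or.inr ⟨x, hx'.1, hadj⟩), h1⟩
  have hdisj : Disjoint A N := by
    rw [Finset.disjoint_left]
    intro y hy hy'
    rw [hN, Finset.mem_filter, Finset.mem_sdiff] at hy'
    exact hy'.1.2 hy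
  have hcard : (A.card : ℝ) + N.card ≤ (step G X ∩ S).card := by
    have := Finset.card_le_card hsub
    rw [Finset.card_union_of_disjoint hdisj] at this
    exact_mod_cast this
  have he1 : eG G A (S \ A) ≤ d * A.card := eG_le_left hd _ _
  have he2 : eG G A (S \ A) ≤ d * N.card := eG_le_nbr hd _ _
  have he0 : 0 ≤ eG G A (S \ A) := eG_nonneg _ _ _
  set u := eG G A (S \ A) / (d * A.card) with hu
  have hdA : (0 : ℝ) < d * A.card := mul_pos hdpos hApos
  have hu0 : 0 ≤ u := div_nonneg he0 hdA.le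
  have hu1 : u ≤ 1 := by rw [hu, div_le_one hdA]; exact he1
  have hkey : A.card * (1 + u) ≤ (step G X ∩ S).card := by
    have : A.card * u = eG G A (S \ A) / d := by
      rw [hu]; field_simp
    have h3 : eG G A (S \ A) / d ≤ N.card := by
      rw [div_le_iff₀ hdpos]; linarith
    nlinarith
  calc Real.logb 2 A.card + u ≤ Real.logb 2 A.card + Real.logb 2 (1 + u) := by
        linarith [logb_one_add hu0 hu1]
    _ = Real.logb 2 (A.card * (1 + u)) := by
        rw [Real.logb_mul hApos.ne' (by linarith)]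
    _ ≤ Real.logb 2 (step G X ∩ S).card :=
        Real.logb_le_logb_of_le (by norm_num) (by positivity) hkey

/-- The logarithmic deficit of `X` in `S`. -/
noncomputable def Lg (S X : Finset V) : ℝ :=
  Real.logb 2 S.card - Real.logb 2 (X ∩ S).card

lemma Lg_nonneg (S X : Finset V) (hX : (X ∩ S).Nonempty) : 0 ≤ Lg S X := by
  unfold Lg
  have h1 : (0 : ℝ) < (X ∩ S).card := by exact_mod_cast Finset.card_pos.2 hX
  have h2 : ((X ∩ S).card : ℝ) ≤ S.card := by
    exact_mod_cast Finset.card_le_card Finset.inter_subset_right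
  have := Real.logb_le_logb_of_le (b := 2) (by norm_num) h1 h2
  linarith

/-- If at most half of `S` is covered then the deficit is at least `1`. -/
lemma ind_half_le_Lg (S X : Finset V) (hX : (X ∩ S).Nonempty) :
    ind (2 * (X ∩ S).card ≤ S.card) ≤ Lg S X := by
  by_cases h : 2 * (X ∩ S).card ≤ S.card
  · rw [ind_true h]
    unfold Lg
    have h1 : (0 : ℝ) < (X ∩ S).card := by exact_mod_cast Finset.card_pos.2 hX
    have h2 : 2 * ((X ∩ S).card : ℝ) ≤ S.card := by exact_mod_cast h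
    have := Real.logb_le_logb_of_le (b := 2) (by norm_num) (by positivity) h2
    rw [Real.logb_mul (by norm_num) h1.ne', Real.logb_self_eq_one (by norm_num)] at this
    linarith
  · rw [ind_false h]; exact Lg_nonneg S X hX

/-- Logarithmic expansion of the expected graph inside `S`. -/
def LogExp (μ : SimpleGraph V → ℝ) (d : ℕ) (κ : ℝ) (S : Finset V) : Prop :=
  ∀ A ⊆ S, A.Nonempty → d * κ * A.card * (Real.logb 2 S.card - Real.logb 2 A.card)
    ≤ pS μ A (S \ A)

lemma growth_exp (h0 : ∀ G, 0 ≤ μ G) (h1 : ∑ G, μ G = 1) {d : ℕ} (hd1 : 1 ≤ d)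
    (hd : ∀ G, μ G ≠ 0 → DegLe G d) {κ : ℝ} {S : Finset V} (hS : LogExp μ d κ S)
    {X : Finset V} (hX : (X ∩ S).Nonempty) :
    ∑ G, μ G * Lg S (step G X) ≤ (1 - κ) * Lg S X := by
  set A := X ∩ S with hA
  have hApos : (0 : ℝ) < A.card := by exact_mod_cast Finset.card_pos.2 hX
  have hdpos : (0 : ℝ) < d := by exact_mod_cast hd1
  have hdA : (0 : ℝ) < d * A.card := mul_pos hdpos hApos
  have hstep : ∀ G, μ G * Lg S (step G X) ≤ μ G * (Lg S X - eG G A (S \ A) / (d * A.card)) := by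
    intro G
    by_cases hG : μ G = 0
    · simp [hG]
    · refine mul_le_mul_of_nonneg_left ?_ (h0 G)
      have := growth_det hd1 (hd G hG) S X hX
      unfold Lg
      rw [← hA] at *
      linarith
  have hsum : ∑ G, μ G * (Lg S X - eG G A (S \ A) / (d * A.card))
      = Lg S X - pS μ A (S \ A) / (d * A.card) := by
    rw [pS_eq]
    have : ∀ G, μ G * (Lg S X - eG G A (S \ A) / (d * A.card))
        = μ G * Lg S X - μ G * eG G A (S \ A) / (d * A.card) := by
      intro G; ring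
    simp only [this, Finset.sum_sub_distrib, ← Finset.sum_mul, ← Finset.sum_div, h1, one_mul]
  have hexp : κ * Lg S X ≤ pS μ A (S \ A) / (d * A.card) := by
    rw [le_div_iff₀ hdA]
    have := hS A Finset.inter_subset_right hX
    unfold Lg
    rw [← hA]
    linarith
  calc ∑ G, μ G * Lg S (step G X)
      ≤ ∑ G, μ G * (Lg S X - eG G A (S \ A) / (d * A.card)) := Finset.sum_le_sum fun G _ => hstep G
    _ = Lg S X - pS μ A (S \ A) / (d * A.card) := hsum
    _ ≤ (1 - κ) * Lg S X := by linarith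

lemma kappa_le_one (h0 : ∀ G, 0 ≤ μ G) (h1 : ∑ G, μ G = 1) {d : ℕ} (hd1 : 1 ≤ d)
    (hd : ∀ G, μ G ≠ 0 → DegLe G d) {κ : ℝ} (hκ : 0 ≤ κ) {S : Finset V} (hS : LogExp μ d κ S)
    (hS2 : 2 ≤ S.card) : κ ≤ 1 := by
  obtain ⟨x, hx⟩ : S.Nonempty := Finset.card_pos.1 (by omega)
  have h := hS {x} (by simpa using hx) (Finset.singleton_nonempty x)
  rw [Finset.card_singleton] at h
  simp only [Nat.cast_one, mul_one, Real.logb_one, sub_zero] at h
  have hdpos : (0 : ℝ) < d := by exact_mod_cast hd1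
  have hle : pS μ {x} (S \ {x}) ≤ d := by
    rw [pS_eq]
    calc ∑ G, μ G * eG G {x} (S \ {x}) ≤ ∑ G, μ G * d := by
          refine Finset.sum_le_sum fun G _ => ?_
          by_cases hG : μ G = 0
          · simp [hG]
          · refine mul_le_mul_of_nonneg_left ?_ (h0 G)
            have := eG_le_left (hd G hG) {x} (S \ {x})
            simpa using this
      _ = d := by rw [← Finset.sum_mul, h1, one_mul]
  have hlog : (1 : ℝ) ≤ Real.logb 2 S.card := by
    rw [Real.le_logb_iff_rpow_le (by norm_num) (by positivity)]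
    rw [Real.rpow_one]
    exact_mod_cast hS2
  have h3 : d * κ * 1 ≤ d * κ * Real.logb 2 S.card :=
    mul_le_mul_of_nonneg_left hlog (by positivity)
  have h4 : d * κ ≤ d * 1 := by linarith
  exact le_of_mul_le_mul_left h4 hdpos

lemma Ex_reach (h0 : ∀ G, 0 ≤ μ G) (h1 : ∑ G, μ G = 1) {d : ℕ} (hd1 : 1 ≤ d)
    (hd : ∀ G, μ G ≠ 0 → DegLe G d) {κ : ℝ} (hκ1 : κ ≤ 1) {S : Finset V}
    (hS : LogExp μ d κ S) (t : ℕ) {X : Finset V} (hX : (X ∩ S).Nonempty) :
    Ex μ t (fun ω => Lg S (reach ω X)) ≤ (1 - κ) ^ t * Lg S X := by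
  induction t generalizing X with
  | zero => simp [Ex, reach]
  | succ t ih =>
    simp only [Ex, reach]
    have hk : (0 : ℝ) ≤ (1 - κ) ^ t := pow_nonneg (by linarith) t
    calc ∑ G, μ G * Ex μ t (fun ω => Lg S (reach ω (step G X)))
        ≤ ∑ G, μ G * ((1 - κ) ^ t * Lg S (step G X)) := by
          refine Finset.sum_le_sum fun G _ => mul_le_mul_of_nonneg_left (ih ?_) (h0 G)
          exact hX.mono (Finset.inter_subset_inter_right (subset_step G X))
      _ = (1 - κ) ^ t * ∑ G, μ G * Lg S (step G X) := by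
          rw [Finset.mul_sum]
          exact Finset.sum_congr rfl fun G _ => by ring
      _ ≤ (1 - κ) ^ t * ((1 - κ) * Lg S X) :=
          mul_le_mul_of_nonneg_left (growth_exp h0 h1 hd1 hd hS hX) hk
      _ = (1 - κ) ^ (t + 1) * Lg S X := by ring

lemma Ex_breach (h0 : ∀ G, 0 ≤ μ G) (h1 : ∑ G, μ G = 1) {d : ℕ} (hd1 : 1 ≤ d)
    (hd : ∀ G, μ G ≠ 0 → DegLe G d) {κ : ℝ} (hκ1 : κ ≤ 1) {S : Finset V}
    (hS : LogExp μ d κ S) (t : ℕ) {X : Finset V} (hX : (X ∩ S).Nonempty) :
    Ex μ t (fun ω => Lg S (breach ω X)) ≤ (1 - κ) ^ t * Lg S X := by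
  induction t with
  | zero => simp [Ex, breach]
  | succ t ih =>
    simp only [Ex, breach]
    calc ∑ G, μ G * Ex μ t (fun ω => Lg S (step G (breach ω X)))
        = Ex μ t (fun ω => ∑ G, μ G * Lg S (step G (breach ω X))) := by
          rw [Ex_sum]
          exact Finset.sum_congr rfl fun G _ => (Ex_mul t _ _).symm
      _ ≤ Ex μ t (fun ω => (1 - κ) * Lg S (breach ω X)) := by
          refine Ex_mono h0 t fun ω => growth_exp h0 h1 hd1 hd hS ?_
          exact hX.mono (Finset.inter_subset_inter_right (subset_breach ω X))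
      _ = (1 - κ) * Ex μ t (fun ω => Lg S (breach ω X)) := Ex_mul t _ _
      _ ≤ (1 - κ) * ((1 - κ) ^ t * Lg S X) := mul_le_mul_of_nonneg_left ih (by linarith)
      _ = (1 - κ) ^ (t + 1) * Lg S X := by ring

/-- In a set with logarithmic expansion `κ` all hops are possible within `2t` steps, if
`κ t` is at least `log (4 log₂ |S|)`. -/
lemma hop_of_LogExp (h0 : ∀ G, 0 ≤ μ G) (h1 : ∑ G, μ G = 1) {d : ℕ} (hd1 : 1 ≤ d)
    (hd : ∀ G, μ G ≠ 0 → DegLe G d) {κ : ℝ} (hκ : 0 ≤ κ) {S : Finset V}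
    (hS : LogExp μ d κ S) (hS2 : 2 ≤ S.card) {t : ℕ}
    (ht : 4 * Real.logb 2 S.card ≤ Real.exp (κ * t)) {x y : V} (hx : x ∈ S) (hy : y ∈ S) :
    1 / 2 ≤ hopP μ (t + t) x y := by
  have hκ1 := kappa_le_one h0 h1 hd1 hd hκ hS hS2
  have hexp : (1 - κ) ^ t ≤ Real.exp (-(κ * t)) := by
    have h3 : 1 - κ ≤ Real.exp (-κ) := by
      have := Real.add_one_le_exp (-κ); linarith
    calc (1 - κ) ^ t ≤ (Real.exp (-κ)) ^ t := pow_le_pow_left₀ (by linarith) h3 t
      _ = Real.exp (-(κ * t)) := by rw [← Real.exp_nat_mul]; congr 1; ring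
  have hsmall : ∀ z ∈ S, (1 - κ) ^ t * Lg S {z} ≤ 1 / 4 := by
    intro z hz
    have hz' : ({z} : Finset V) ∩ S = {z} := by
      rw [Finset.inter_eq_left]; simpa using hz
    have hL : Lg S {z} = Real.logb 2 S.card := by
      unfold Lg; rw [hz']; simp
    rw [hL]
    have hLn : 0 ≤ Real.logb 2 S.card := by
      apply Real.logb_nonneg (by norm_num)
      have : 1 ≤ S.card := by omega
      exact_mod_cast this
    have h4 : Real.logb 2 S.card ≤ Real.exp (κ * t) / 4 := by linarith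
    calc (1 - κ) ^ t * Real.logb 2 S.card
        ≤ Real.exp (-(κ * t)) * (Real.exp (κ * t) / 4) :=
          mul_le_mul hexp h4 hLn (Real.exp_nonneg _)
      _ = 1 / 4 := by
          rw [← mul_div_assoc, ← Real.exp_add]; simp
  have hnx : (({x} : Finset V) ∩ S).Nonempty := ⟨x, by simp [hx]⟩
  have hny : (({y} : Finset V) ∩ S).Nonempty := ⟨y, by simp [hy]⟩
  have hf : Ex μ t (fun ω => ind (2 * (reach ω {x} ∩ S).card ≤ S.card)) ≤ 1 / 4 := by
    calc Ex μ t (fun ω => ind (2 * (reach ω {x} ∩ S).card ≤ S.card))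
        ≤ Ex μ t (fun ω => Lg S (reach ω {x})) := Ex_mono h0 t fun ω =>
          ind_half_le_Lg _ _ (hnx.mono (Finset.inter_subset_inter_right (subset_reach ω _)))
      _ ≤ (1 - κ) ^ t * Lg S {x} := Ex_reach h0 h1 hd1 hd hκ1 hS t hnx
      _ ≤ 1 / 4 := hsmall x hx
  have hb : Ex μ t (fun ω => ind (2 * (breach ω {y} ∩ S).card ≤ S.card)) ≤ 1 / 4 := by
    calc Ex μ t (fun ω => ind (2 * (breach ω {y} ∩ S).card ≤ S.card))
        ≤ Ex μ t (fun ω => Lg S (breach ω {y})) := Ex_mono h0 t fun ω =>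
          ind_half_le_Lg _ _ (hny.mono (Finset.inter_subset_inter_right (subset_breach ω _)))
      _ ≤ (1 - κ) ^ t * Lg S {y} := Ex_breach h0 h1 hd1 hd hκ1 hS t hny
      _ ≤ 1 / 4 := hsmall y hy
  unfold hopP
  rw [Ex_append]
  have hpt : ∀ ω₁ ω₂ : List (SimpleGraph V),
      1 - ind (2 * (reach ω₁ {x} ∩ S).card ≤ S.card)
        - ind (2 * (breach ω₂ {y} ∩ S).card ≤ S.card)
      ≤ ind (∃ A, TW (ω₁ ++ ω₂) x y A) := by
    intro ω₁ ω₂
    by_cases ha : 2 * (reach ω₁ {x} ∩ S).card ≤ S.card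
    · rw [ind_true ha]
      have := ind_nonneg (2 * (breach ω₂ {y} ∩ S).card ≤ S.card)
      have := ind_nonneg (∃ A, TW (ω₁ ++ ω₂) x y A)
      linarith
    · by_cases hb : 2 * (breach ω₂ {y} ∩ S).card ≤ S.card
      · rw [ind_true hb]
        have := ind_nonneg (2 * (reach ω₁ {x} ∩ S).card ≤ S.card)
        have := ind_nonneg (∃ A, TW (ω₁ ++ ω₂) x y A)
        linarith
      · rw [ind_false ha, ind_false hb]
        have hex : ∃ z, z ∈ reach ω₁ {x} ∧ z ∈ breach ω₂ {y} := by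
          by_contra hcon
          push Not at hcon
          have hdj : Disjoint (reach ω₁ {x} ∩ S) (breach ω₂ {y} ∩ S) := by
            rw [Finset.disjoint_left]
            intro z hz hz'
            exact hcon z (Finset.mem_inter.1 hz).1 (Finset.mem_inter.1 hz').1
          have hsub : (reach ω₁ {x} ∩ S) ∪ (breach ω₂ {y} ∩ S) ⊆ S :=
            Finset.union_subset Finset.inter_subset_right Finset.inter_subset_right
          have := Finset.card_le_card hsub
          rw [Finset.card_union_of_disjoint hdj] at this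
          omega
        obtain ⟨z, hz1, hz2⟩ := hex
        obtain ⟨x', hx', A, hA⟩ := TW_of_mem_reach hz1
        obtain ⟨y', hy', B, hB⟩ := TW_of_mem_breach hz2
        rw [Finset.mem_singleton] at hx' hy'
        subst hx' hy'
        rw [ind_true ⟨_, hA.append hB⟩]
        linarith
  calc (1 : ℝ) / 2 ≤ 1 - Ex μ t (fun ω => ind (2 * (reach ω {x} ∩ S).card ≤ S.card))
        - Ex μ t (fun ω => ind (2 * (breach ω {y} ∩ S).card ≤ S.card)) := by linarith
    _ = Ex μ t (fun ω₁ => Ex μ t (fun ω₂ => 1 - ind (2 * (reach ω₁ {x} ∩ S).card ≤ S.card)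
        - ind (2 * (breach ω₂ {y} ∩ S).card ≤ S.card))) := by
        simp only [Ex_sub, Ex_const h1]
    _ ≤ Ex μ t (fun ω₁ => Ex μ t (fun ω₂ => ind (∃ A, TW (ω₁ ++ ω₂) x y A))) :=
        Ex_mono h0 t fun ω₁ => Ex_mono h0 t fun ω₂ => hpt ω₁ ω₂

end Pool.Agent.J4H99.RST
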