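import Pool.Agent.J4H99.RST.Basic

/-!
# Trips: sequences of hops, and their execution
-/

namespace Pool.Agent.J4H99.RST

open Finset
open scoped BigOperators Classical

variable {V : Type} [Fintype V] [DecidableEq V] {μ : SimpleGraph V → ℝ}

/-- `Trip μ B x z A c`: a sequence of hops from `x` to `z` through all vertices of `A`; each hop
is over a block of length `b` with `1 ≤ b ≤ B` in which it succeeds with probability at least
`1/2`; `c` is the total of the block lengths. -/
inductive Trip (μ : SimpleGraph V → ℝ) (B : ℕ) : V → V → Finset V → ℕ → Prop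
  | nil (x : V) : Trip μ B x x {x} 0
  | cons {x y z : V} {A : Finset V} {b c : ℕ} : 1 / 2 ≤ hopP μ b x y → 1 ≤ b → b ≤ B →
      Trip μ B y z A c → Trip μ B x z (insert x A) (b + c)

variable {B : ℕ}

lemma Trip.start_mem {x z : V} {A : Finset V} {c : ℕ} (h : Trip μ B x z A c) : x ∈ A := by
  cases h <;> simp

lemma Trip.append {x y z : V} {A A' : Finset V} {c c' : ℕ} (h₁ : Trip μ B x y A c)
    (h₂ : Trip μ B y z A' c') : Trip μ B x z (A ∪ A') (c + c') := by
  induction h₁ with
  | nil x =>
    have : ({x} : Finset V) ∪ A' = A' := by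
      rw [← Finset.insert_eq, Finset.insert_eq_of_mem h₂.start_mem]
    rw [this, Nat.zero_add]; exact h₂
  | cons hp hb1 hb _ ih =>
    rw [Finset.insert_union, Nat.add_assoc]
    exact Trip.cons hp hb1 hb (ih h₂)

lemma Trip.split {x z : V} {A : Finset V} {c : ℕ} (h : Trip μ B x z A c) {y : V} (hy : y ∈ A) :
    ∃ A₁ A₂ c₁ c₂, Trip μ B x y A₁ c₁ ∧ Trip μ B y z A₂ c₂ ∧ A₁ ∪ A₂ = A ∧ c₁ + c₂ = c := by
  induction h with
  | nil x =>
    rw [Finset.mem_singleton] at hy
    subst hy
    exact ⟨{y}, {y}, 0, 0, Trip.nil y, Trip.nil y, by simp, rfl⟩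
  | @cons x y' z A b c hp hb1 hb htail ih =>
    by_cases hxy : y = x
    · subst hxy
      refine ⟨{y}, insert y A, 0, b + c, Trip.nil y, Trip.cons hp hb1 hb htail, ?_, by omega⟩
      rw [← Finset.insert_eq, Finset.insert_idem]
    · have hy' : y ∈ A := by
        rcases Finset.mem_insert.1 hy with h | h
        · exact absurd h hxy
        · exact h
      obtain ⟨A₁, A₂, c₁, c₂, h1, h2, h3, h4⟩ := ih hy'
      refine ⟨insert x A₁, A₂, b + c₁, c₂, Trip.cons hp hb1 hb h1, h2, ?_, by omega⟩
      rw [Finset.insert_union, h3]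

lemma Trip.rotate {x : V} {A : Finset V} {c : ℕ} (h : Trip μ B x x A c) {y : V} (hy : y ∈ A) :
    Trip μ B y y A c := by
  obtain ⟨A₁, A₂, c₁, c₂, h1, h2, h3, h4⟩ := h.split hy
  have := h2.append h1
  rw [Finset.union_comm, h3, Nat.add_comm, h4] at this
  exact this

lemma Trip.merge {x y : V} {A A' : Finset V} {a b w : ℕ} (h₁ : Trip μ B x x A a)
    (h₂ : Trip μ B y y A' b) (hxy : 1 / 2 ≤ hopP μ w x y) (hyx : 1 / 2 ≤ hopP μ w y x)
    (hw1 : 1 ≤ w) (hw : w ≤ B) : Trip μ B x x (A ∪ A') (a + b + 2 * w) := by
  have h3 : Trip μ B y x (insert y {x}) (w + 0) := Trip.cons hyx hw1 hw (Trip.nil x)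
  have h4 := h₂.append h3
  have h5 := Trip.cons hxy hw1 hw h4
  have h6 := h₁.append h5
  have hs : A ∪ insert x (A' ∪ insert y {x}) = A ∪ A' := by
    have hx := h₁.start_mem
    have hy := h₂.start_mem
    ext v
    simp only [Finset.mem_union, Finset.mem_insert, Finset.mem_singleton]
    constructor
    · rintro (h | h | h | h | h)
      · exact Or.inl h
      · subst h; exact Or.inl hx
      · exact Or.inr h
      · subst h; exact Or.inr hy
      · subst h; exact Or.inl hx
    · rintro (h | h)
      · exact Or.inl h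
      · exact Or.inr (Or.inr (Or.inl h))
  have hc : a + (w + (b + (w + 0))) = a + b + 2 * w := by ring
  rw [hs, hc] at h6
  exact h6

lemma exp_avg {u : ℝ} (h0 : 0 ≤ u) (h1 : u ≤ 1 / 4) :
    (Real.exp (-(3 * u)) + Real.exp u) / 2 ≤ 1 := by
  have h2 : Real.exp (-(3 * u)) ≤ 1 / (1 + 3 * u) := by
    rw [Real.exp_neg, ← one_div]
    refine one_div_le_one_div_of_le (by linarith) ?_
    have := Real.add_one_le_exp (3 * u); linarith
  have h3 : Real.exp u ≤ 1 / (1 - u) := by
    have h4 : Real.exp u = 1 / Real.exp (-u) := by rw [Real.exp_neg]; simp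
    rw [h4]
    refine one_div_le_one_div_of_le (by linarith) ?_
    have := Real.add_one_le_exp (-u); linarith
  have h5 : 1 / (1 + 3 * u) + 1 / (1 - u) ≤ 2 := by
    have ha : (0 : ℝ) < 1 + 3 * u := by linarith
    have hb : (0 : ℝ) < 1 - u := by linarith
    rw [div_add_div _ _ ha.ne' hb.ne', div_le_iff₀ (by positivity)]
    nlinarith
  linarith

/-- Failure probability. -/
noncomputable def fail (μ : SimpleGraph V → ℝ) (T : ℕ) (x z : V) (A : Finset V) : ℝ :=
  Ex μ T (fun ω => ind (¬ ∃ A', A ⊆ A' ∧ TW ω x z A'))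

lemma fail_le_one (h0 : ∀ G, 0 ≤ μ G) (h1 : ∑ G, μ G = 1) (T : ℕ) (x z : V) (A : Finset V) :
    fail μ T x z A ≤ 1 := by
  unfold fail
  calc _ ≤ Ex μ T (fun _ => 1) := Ex_mono h0 T fun ω => ind_le_one _
    _ = 1 := Ex_const h1 T 1

/-- Execution of a trip: the probability that it cannot be completed within `T` steps. -/
lemma Trip.exec (h0 : ∀ G, 0 ≤ μ G) (h1 : ∑ G, μ G = 1) {θ : ℝ} (hθ : 0 ≤ θ)
    (hθB : θ * B ≤ 1 / 4) {x z : V} {A : Finset V} {c : ℕ} (h : Trip μ B x z A c) :
    ∀ T : ℕ, fail μ T x z A ≤ Real.exp (θ * (4 * c - T)) := by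
  induction h with
  | nil x =>
    intro T
    have : fail μ T x x {x} = 0 := by
      unfold fail
      have h2 : (fun ω : List (SimpleGraph V) => ind (¬ ∃ A', {x} ⊆ A' ∧ TW ω x x A'))
          = fun _ => 0 := by
        funext ω
        exact ind_false (not_not.2 ⟨{x}, subset_rfl, TW.wait ω x⟩)
      rw [h2, Ex_const h1]
    rw [this]; exact Real.exp_nonneg _
  | @cons x y z A b c hp hb1 hb htail ih =>
    intro T
    induction T using Nat.strong_induction_on with
    | _ T ihT =>
      by_cases hTb : T < b
      · have hone : 1 ≤ Real.exp (θ * (4 * ((b + c : ℕ) : ℝ) - T)) := by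
          rw [Real.one_le_exp_iff]
          apply mul_nonneg hθ
          have h2 : (T : ℝ) ≤ b := by exact_mod_cast hTb.le
          push_cast
          have h3 : (0 : ℝ) ≤ c := Nat.cast_nonneg c
          have h4 : (0 : ℝ) ≤ b := Nat.cast_nonneg b
          linarith
        exact (fail_le_one h0 h1 T x z _).trans hone
      · push Not at hTb
        obtain ⟨T', rfl⟩ := Nat.exists_eq_add_of_le hTb
        have ihx := ihT T' (by omega)
        have ihy := ih T'
        set q := hopP μ b x y with hq
        set E1 := fail μ T' y z A with hE1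
        set E2 := fail μ T' x z (insert x A) with hE2
        have hE12 : E1 ≤ E2 ∨ E2 ≤ E1 := le_total _ _
        have hmain : fail μ (b + T') x z (insert x A) ≤ q * E1 + (1 - q) * E2 := by
          unfold fail
          rw [Ex_append]
          have hpt : ∀ ω₁ : List (SimpleGraph V),
              Ex μ T' (fun ω₂ => ind (¬ ∃ A', insert x A ⊆ A' ∧ TW (ω₁ ++ ω₂) x z A'))
              ≤ ind (∃ A', TW ω₁ x y A') * E1 + ind (¬ ∃ A', TW ω₁ x y A') * E2 := by
            intro ω₁
            by_cases hh : ∃ A', TW ω₁ x y A'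
            · rw [ind_true hh, ind_false (not_not.2 hh), one_mul, zero_mul, add_zero]
              obtain ⟨A', hA'⟩ := hh
              refine Ex_mono h0 T' fun ω₂ => ?_
              by_cases h3 : ∃ A'', A ⊆ A'' ∧ TW ω₂ y z A''
              · obtain ⟨A'', hs, hA''⟩ := h3
                rw [ind_false]
                · exact ind_nonneg _
                · refine not_not.2 ⟨A' ∪ A'', ?_, hA'.append hA''⟩
                  refine Finset.insert_subset ?_ (hs.trans Finset.subset_union_right)
                  exact Finset.mem_union_left _ hA'.start_mem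
              · rw [ind_true h3]; exact ind_le_one _
            · rw [ind_false hh, ind_true hh, one_mul, zero_mul, zero_add]
              refine Ex_mono h0 T' fun ω₂ => ?_
              by_cases h3 : ∃ A'', insert x A ⊆ A'' ∧ TW ω₂ x z A''
              · obtain ⟨A'', hs, hA''⟩ := h3
                rw [ind_false]
                · exact ind_nonneg _
                · exact not_not.2 ⟨{x} ∪ A'', hs.trans Finset.subset_union_right,
                    (TW.wait ω₁ x).append hA''⟩
              · rw [ind_true h3]; exact ind_le_one _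
          calc Ex μ b (fun ω₁ => Ex μ T' (fun ω₂ =>
                ind (¬ ∃ A', insert x A ⊆ A' ∧ TW (ω₁ ++ ω₂) x z A')))
              ≤ Ex μ b (fun ω₁ => ind (∃ A', TW ω₁ x y A') * E1
                + ind (¬ ∃ A', TW ω₁ x y A') * E2) := Ex_mono h0 b hpt
            _ = q * E1 + (1 - q) * E2 := by
                have e1 : (fun ω₁ : List (SimpleGraph V) => ind (∃ A', TW ω₁ x y A') * E1
                    + ind (¬ ∃ A', TW ω₁ x y A') * E2)
                    = fun ω₁ => (E1 - E2) * ind (∃ A', TW ω₁ x y A') + E2 := by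
                  funext ω₁
                  rw [ind_not]; ring
                rw [e1, Ex_add, Ex_mul, Ex_const h1]
                change (E1 - E2) * q + E2 = _
                ring
        have hq1 : q ≤ 1 := by
          rw [hq]; unfold hopP
          calc _ ≤ Ex μ b (fun _ => 1) := Ex_mono h0 b fun ω => ind_le_one _
            _ = 1 := Ex_const h1 b 1
        set M := Real.exp (θ * (4 * ((b + c : ℕ) : ℝ) - (b + T' : ℕ))) with hM
        have hMpos : 0 < M := Real.exp_pos _
        have hy' : E1 ≤ M * Real.exp (-(3 * (θ * b))) := by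
          rw [hM, ← Real.exp_add]
          refine ihy.trans (le_of_eq ?_)
          congr 1
          push_cast
          ring
        have hx' : E2 ≤ M * Real.exp (θ * b) := by
          rw [hM, ← Real.exp_add]
          refine ihx.trans (le_of_eq ?_)
          congr 1
          push_cast
          ring
        have hu0 : 0 ≤ θ * b := mul_nonneg hθ (Nat.cast_nonneg b)
        have hu1 : θ * b ≤ 1 / 4 := by
          refine le_trans (mul_le_mul_of_nonneg_left ?_ hθ) hθB
          exact_mod_cast hb
        have havg := exp_avg hu0 hu1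
        have hle : Real.exp (-(3 * (θ * b))) ≤ Real.exp (θ * b) :=
          Real.exp_le_exp.2 (by linarith)
        have hq0 : 0 ≤ q := by linarith
        calc fail μ (b + T') x z (insert x A) ≤ q * E1 + (1 - q) * E2 := hmain
          _ ≤ q * (M * Real.exp (-(3 * (θ * b)))) + (1 - q) * (M * Real.exp (θ * b)) :=
              add_le_add (mul_le_mul_of_nonneg_left hy' hq0)
                (mul_le_mul_of_nonneg_left hx' (by linarith))
          _ = M * (q * Real.exp (-(3 * (θ * b))) + (1 - q) * Real.exp (θ * b)) := by ring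
          _ ≤ M * ((Real.exp (-(3 * (θ * b))) + Real.exp (θ * b)) / 2) := by
              refine mul_le_mul_of_nonneg_left ?_ hMpos.le
              nlinarith
          _ ≤ M * 1 := mul_le_mul_of_nonneg_left havg hMpos.le
          _ = M := mul_one M

end Pool.Agent.J4H99.RST
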